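import Pool.Agent.Helper70.Isg.Goals2

/-!
# Basic API of the lattice Ising model (packet BASIC of MP_600500_pr)
-/

noncomputable section

namespace Pool.Agent.Helper75.Isg

open Pool.Agent.Helper70.Isg

variable {d : ℕ}

theorem l1_neg (u : Site d) : l1 (-u) = l1 u := by
  simp [l1]

theorem l1_eq_zero (u : Site d) : l1 u = 0 ↔ u = 0 := by
  unfold l1
  rw [Finset.sum_eq_zero_iff]
  constructor
  · intro h
    funext i
    exact Int.natAbs_eq_zero.1 (h i (Finset.mem_univ i))
  · intro h i _
    rw [h]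
    simp

theorem l1_single (i : Fin d) (c : ℤ) : l1 (Pi.single i c : Site d) = c.natAbs := by
  unfold l1
  rw [Finset.sum_eq_single i]
  · simp
  · intro j _ hj
    rw [Pi.single_eq_of_ne hj]
    rfl
  · simp

theorem mem_nbrs (u v : Site d) : v ∈ nbrs u ↔ l1 (v - u) = 1 := by
  unfold nbrs
  rw [Finset.mem_image]
  constructor
  · rintro ⟨⟨i, b⟩, -, rfl⟩
    rw [add_sub_cancel_left, l1_single]
    cases b <;> simp
  · intro h
    obtain ⟨i, hi⟩ : ∃ i, ((v - u) i).natAbs ≠ 0 := by
      by_contra hcon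
      push Not at hcon
      unfold l1 at h
      rw [Finset.sum_eq_zero fun i _ => hcon i] at h
      exact zero_ne_one h
    have hsum := Finset.add_sum_erase Finset.univ (fun k => ((v - u) k).natAbs)
      (Finset.mem_univ i)
    have h1 : ((v - u) i).natAbs + ∑ k ∈ Finset.univ.erase i, ((v - u) k).natAbs = 1 := by
      rw [hsum]; exact h
    have h2 : ((v - u) i).natAbs = 1 := by omega
    have h3 : ∑ k ∈ Finset.univ.erase i, ((v - u) k).natAbs = 0 := by omega
    rw [Finset.sum_eq_zero_iff] at h3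
    have h4 : v - u = Pi.single i ((v - u) i) := by
      funext k
      by_cases hk : k = i
      · subst hk; simp
      · rw [Pi.single_eq_of_ne hk]
        exact Int.natAbs_eq_zero.1 (h3 k (Finset.mem_erase.2 ⟨hk, Finset.mem_univ k⟩))
    rcases Int.natAbs_eq ((v - u) i) with h5 | h5
    · refine ⟨(i, true), Finset.mem_univ _, ?_⟩
      rw [h2] at h5
      simp only [if_true]
      rw [h5] at h4
      rw [← sub_add_cancel v u, h4, add_comm]
      simp
    · refine ⟨(i, false), Finset.mem_univ _, ?_⟩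
      rw [h2] at h5
      simp only [if_false, Bool.false_eq_true]
      rw [h5] at h4
      rw [← sub_add_cancel v u, h4, add_comm]
      simp

theorem l1_add (u v : Site d) : l1 (u + v) ≤ l1 u + l1 v := by
  unfold l1
  rw [← Finset.sum_add_distrib]
  exact Finset.sum_le_sum fun i _ => Int.natAbs_add_le _ _

theorem mem_ball (v u : Site d) (n : ℕ) : u ∈ ball v n ↔ l1 (u - v) ≤ n := by
  unfold ball
  rw [Finset.mem_filter, Finset.mem_Icc]
  refine ⟨fun h => h.2, fun h => ⟨?_, h⟩⟩
  have key : ∀ i, ((u - v) i).natAbs ≤ n := fun i =>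
    (Finset.single_le_sum (f := fun i => ((u - v) i).natAbs) (fun _ _ => Nat.zero_le _)
      (Finset.mem_univ i)).trans h
  constructor <;> intro i <;> have := key i <;> simp only [Pi.sub_apply] at this ⊢ <;> omega

theorem pf_pos (β : ℝ) (Λ : Finset (Site d)) (η : Cfg d) : 0 < pf β Λ η := by
  unfold pf
  exact Finset.sum_pos (fun _ _ => Real.exp_pos _) Finset.univ_nonempty

theorem pf_BASIC : S_BASIC := by
  intro d
  refine ⟨mem_nbrs, ?_, ?_, mem_ball, l1_add, l1_neg, l1_eq_zero, pf_pos, ?_, ?_, ?_, ?_, ?_⟩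
  · intro u v
    rw [mem_nbrs, mem_nbrs, ← l1_neg, neg_sub]
  · intro u
    rw [mem_nbrs, sub_self, (l1_eq_zero (0 : Site d)).2 rfl]
    exact zero_ne_one
  · intro β Λ η c
    unfold ev
    rw [← Finset.mul_sum]
    change c * pf β Λ η / pf β Λ η = c
    rw [mul_div_cancel_right₀ _ (pf_pos β Λ η).ne']
  · intro β Λ η f g
    unfold ev
    rw [← add_div, ← Finset.sum_add_distrib]
    simp only [add_mul]
  · intro β Λ η c f
    unfold ev
    rw [← mul_div_assoc, Finset.mul_sum]
    simp only [mul_assoc]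
  · intro β Λ η f g h
    unfold ev
    refine div_le_div_of_nonneg_right ?_ (pf_pos β Λ η).le
    exact Finset.sum_le_sum fun τ _ => mul_le_mul_of_nonneg_right (h _) (Real.exp_pos _).le
  · intro β Λ η f g h
    unfold ev
    congr 1
    refine Finset.sum_congr rfl fun τ _ => ?_
    rw [h]
    intro v hv
    unfold glue
    rw [dif_neg hv]

end Pool.Agent.Helper75.Isg
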