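import Pool.Agent.Helper70.Isg.Goals2

/-!
# The key inequality for positive functions of three spins (packet KEYZ of MP_600500_pr)
-/

noncomputable section

namespace Pool.Agent.Helper75.Isg

open Pool.Agent.Helper70.Isg

theorem param_z (z : Bool → Bool → Bool → ℝ) (hz : ∀ s t r, 0 < z s t r) :
    ∃ k a b c A B C T : ℝ, ∀ s t r, z s t r = Real.exp (k + a * sg s + b * sg t + c * sg r +
      A * (sg s * sg t) + B * (sg s * sg r) + C * (sg t * sg r) + T * (sg s * sg t * sg r)) := by
  let l : Bool → Bool → Bool → ℝ := fun s t r => Real.log (z s t r)
  refine ⟨(l true true true + l true true false + l true false true + l true false false +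
      l false true true + l false true false + l false false true + l false false false) / 8,
    (l true true true + l true true false + l true false true + l true false false -
      l false true true - l false true false - l false false true - l false false false) / 8,
    (l true true true + l true true false - l true false true - l true false false +
      l false true true + l false true false - l false false true - l false false false) / 8,
    (l true true true - l true true false + l true false true - l true false false +
      l false true true - l false true false + l false false true - l false false false) / 8,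
    (l true true true + l true true false - l true false true - l true false false -
      l false true true - l false true false + l false false true + l false false false) / 8,
    (l true true true - l true true false + l true false true - l true false false -
      l false true true + l false true false - l false false true + l false false false) / 8,
    (l true true true - l true true false - l true false true + l true false false +
      l false true true - l false true false - l false false true + l false false false) / 8,
    (l true true true - l true true false - l true false true + l true false false -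
      l false true true + l false true false + l false false true - l false false false) / 8, ?_⟩
  intro s t r
  rw [← Real.exp_log (hz s t r)]
  congr 1
  change l s t r = _
  cases s <;> cases t <;> cases r <;> simp only [sg, if_true, if_false, Bool.false_eq_true] <;> ring

theorem param_w (w : Bool → Bool → Bool → ℝ) (hw : ∀ s t r, 0 < w s t r)
    (hsym : ∀ s t r, w (!s) (!t) (!r) = w s t r) :
    ∃ k A B C : ℝ, ∀ s t r, w s t r = Real.exp (k +
      A * (sg s * sg t) + B * (sg s * sg r) + C * (sg t * sg r)) := by
  let l : Bool → Bool → Bool → ℝ := fun s t r => Real.log (w s t r)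
  have h1 : l false false false = l true true true := congrArg Real.log (hsym true true true)
  have h2 : l false false true = l true true false := congrArg Real.log (hsym true true false)
  have h3 : l false true false = l true false true := congrArg Real.log (hsym true false true)
  have h4 : l false true true = l true false false := congrArg Real.log (hsym true false false)
  refine ⟨(l true true true + l true true false + l true false true + l true false false) / 4,
    (l true true true + l true true false - l true false true - l true false false) / 4,
    (l true true true - l true true false + l true false true - l true false false) / 4,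
    (l true true true - l true true false - l true false true + l true false false) / 4, ?_⟩
  intro s t r
  rw [← Real.exp_log (hw s t r)]
  congr 1
  change l s t r = _
  cases s <;> cases t <;> cases r <;>
    simp only [sg, if_true, if_false, Bool.false_eq_true, h1, h2, h3, h4] <;> ring

section
variable {z w : Bool → Bool → Bool → ℝ} {k a b c A' B' C' T k₁ A B C : ℝ}

theorem tri_prod_eq (hz : ∀ s t r, z s t r = Real.exp (k + a * sg s + b * sg t + c * sg r +
      A' * (sg s * sg t) + B' * (sg s * sg r) + C' * (sg t * sg r) + T * (sg s * sg t * sg r)))
    (J c₀ : ℝ) :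
    tri z J c₀ true true * tri z J c₀ false false = Real.exp (2 * k + 2 * A') *
      (2 * (Real.cosh (2 * ((B' + J) + C')) + Real.cosh (2 * ((c + c₀) + T)))) ∧
    tri z J c₀ true false * tri z J c₀ false true = Real.exp (2 * k - 2 * A') *
      (2 * (Real.cosh (2 * ((B' + J) - C')) + Real.cosh (2 * ((c + c₀) - T)))) := by
  constructor
  · simp only [tri, Fintype.sum_bool, hz, sg, if_true, if_false, Bool.false_eq_true,
      Real.cosh_eq, mul_add, add_mul, mul_div_cancel₀, ne_eq, OfNat.ofNat_ne_zero,
      not_false_eq_true, ← Real.exp_add]
    ring_nf
  · simp only [tri, Fintype.sum_bool, hz, sg, if_true, if_false, Bool.false_eq_true,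
      Real.cosh_eq, mul_add, add_mul, mul_div_cancel₀, ne_eq, OfNat.ofNat_ne_zero,
      not_false_eq_true, ← Real.exp_add]
    ring_nf

theorem tri_w_eq (hw : ∀ s t r, w s t r = Real.exp (k₁ +
      A * (sg s * sg t) + B * (sg s * sg r) + C * (sg t * sg r))) (J : ℝ) :
    tri w J 0 true true = Real.exp (k₁ + A) * (2 * Real.cosh ((B + J) + C)) ∧
    tri w J 0 true false = Real.exp (k₁ - A) * (2 * Real.cosh ((B + J) - C)) := by
  constructor
  · simp only [tri, Fintype.sum_bool, hw, sg, if_true, if_false, Bool.false_eq_true,
      Real.cosh_eq, mul_add, add_mul, mul_div_cancel₀, ne_eq, OfNat.ofNat_ne_zero,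
      not_false_eq_true, ← Real.exp_add]
    ring_nf
  · simp only [tri, Fintype.sum_bool, hw, sg, if_true, if_false, Bool.false_eq_true,
      Real.cosh_eq, mul_add, add_mul, mul_div_cancel₀, ne_eq, OfNat.ofNat_ne_zero,
      not_false_eq_true, ← Real.exp_add]
    ring_nf

theorem tri_iff (hz : ∀ s t r, z s t r = Real.exp (k + a * sg s + b * sg t + c * sg r +
      A' * (sg s * sg t) + B' * (sg s * sg r) + C' * (sg t * sg r) + T * (sg s * sg t * sg r)))
    (hw : ∀ s t r, w s t r = Real.exp (k₁ +
      A * (sg s * sg t) + B * (sg s * sg r) + C * (sg t * sg r))) (J c₀ : ℝ) :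
    (tri z J c₀ true true * tri z J c₀ false false * tri w J 0 true false ^ 2 ≤
      tri z J c₀ true false * tri z J c₀ false true * tri w J 0 true true ^ 2) ↔
      keyI A (B + J) C A' (B' + J) C' T (c + c₀) := by
  obtain ⟨h1, h2⟩ := tri_prod_eq hz J c₀
  obtain ⟨h3, h4⟩ := tri_w_eq hw J
  rw [h1, h2, h3, h4]
  unfold keyI
  set X := Real.cosh (2 * ((B' + J) + C')) + Real.cosh (2 * ((c + c₀) + T))
  set Y := Real.cosh (2 * ((B' + J) - C')) + Real.cosh (2 * ((c + c₀) - T))
  set U := Real.cosh ((B + J) - C)
  set V := Real.cosh ((B + J) + C)
  have hE : 0 < 8 * Real.exp (2 * k + 2 * k₁ - 2 * A' - 2 * A) := by positivity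
  have e1 : Real.exp (2 * k + 2 * A') * (2 * X) * (Real.exp (k₁ - A) * (2 * U)) ^ 2 =
      (8 * Real.exp (2 * k + 2 * k₁ - 2 * A' - 2 * A)) * (Real.exp (4 * A') * X * U ^ 2) := by
    have : Real.exp (2 * k + 2 * A') * Real.exp (k₁ - A) ^ 2 =
        Real.exp (2 * k + 2 * k₁ - 2 * A' - 2 * A) * Real.exp (4 * A') := by
      rw [sq, ← Real.exp_add, ← Real.exp_add, ← Real.exp_add]
      congr 1
      ring
    linear_combination (8 * X * U ^ 2) * this
  have e2 : Real.exp (2 * k - 2 * A') * (2 * Y) * (Real.exp (k₁ + A) * (2 * V)) ^ 2 =
      (8 * Real.exp (2 * k + 2 * k₁ - 2 * A' - 2 * A)) * (Real.exp (4 * A) * Y * V ^ 2) := by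
    have : Real.exp (2 * k - 2 * A') * Real.exp (k₁ + A) ^ 2 =
        Real.exp (2 * k + 2 * k₁ - 2 * A' - 2 * A) * Real.exp (4 * A) := by
      rw [sq, ← Real.exp_add, ← Real.exp_add, ← Real.exp_add]
      congr 1
      ring
    linear_combination (8 * Y * V ^ 2) * this
  rw [e1, e2]
  exact mul_le_mul_iff_right₀ hE

end

theorem pf_KEYZ (hkey : S_KEY) : S_KEYZ := by
  intro z w J hJ hz hw hsym a1 a2 a3 a4 m1 m2 m3 hc
  obtain ⟨k, a, b, c, A', B', C', T, hz'⟩ := param_z z hz
  obtain ⟨k₁, A, B, C, hw'⟩ := param_w w hw hsym
  have a1t := a1 true
  have a1f := a1 false
  have a2t := a2 true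
  have a2f := a2 false
  have a3t := a3 true
  have a4t := a4 true
  simp only [hz', hw', sg, if_true, if_false, Bool.false_eq_true, sq, ← Real.exp_add,
    Real.exp_le_exp] at a1t a1f a2t a2f a3t a4t m1 m2 m3
  have hk := hkey A B C A' B' C' T J (by linarith) (by linarith)
    (abs_le.2 ⟨by linarith, by linarith⟩) (abs_le.2 ⟨by linarith, by linarith⟩)
    (by linarith) (by linarith) (by linarith) (by
      intro c'
      have := (tri_iff hz' hw' 0 (c' - c)).1 (hc (c' - c))
      rw [add_zero, add_zero, add_sub_cancel] at this
      exact this) hJ (c + 0)
  exact (tri_iff hz' hw' J 0).2 hk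

end Pool.Agent.Helper75.Isg
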